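import Pool.Agent.Helper74.WB.St

set_option autoImplicit false

namespace Pool.Agent.Helper65.WB

open Pool.Agent.Helper74.WB

variable {W : Type}

theorem gG_cons (g : W × List W) : gG g = (.b false, false) :: (gG g).tail := rfl

theorem rd_gG (g : W × List W) (σ : List (Lb W × Bool)) :
    rd (gG g) σ = rd (gG g).tail (ap (.b false, false) σ) := by
  rw [gG_cons, rd_cons]; rfl

theorem rd_gG_flag (g : W × List W) (σ : List (Lb W × Bool)) :
    rd (gG g) ((.b false, true) :: σ) = rd (gG g).tail σ := by
  rw [rd_gG]
  congr 1
  exact ap_cancel ((.b false, false) : Lb W × Bool) σ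

theorem c1i_of (hRDP : StRDP) (rk : W → Bool) (g : W × List W) (hg : Rc rk g)
    (σ : List (Lb W × Bool)) (h : ∀ x ∈ σ.head?, x ≠ (.z g.1, true)) :
    C1i rk (rd (gG g).tail σ) := by
  rw [(hRDP W rk g σ hg).1 h]
  exact ⟨true, _, rfl, Or.inr ⟨g.2, g.1, σ, rfl, hg⟩⟩

theorem hRDG (hBAS : StBAS) (hRDP : StRDP) : StRDG := by
  intro W rk g hg
  refine ⟨?_, ?_, ?_, ?_⟩
  · intro s
    rw [rd_gG_flag]
    cases s with
    | nil => exact Or.inr (c1i_of hRDP rk g hg _ (by simp [cfg]))
    | cons X s' =>
      by_cases e : X = g.1
      · subst e
        refine Or.inl ⟨s', rfl, ?_⟩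
        have h := (hRDP W rk g (cfg s') hg).2.1 (by
          intro x hx
          cases s' with
          | nil => simp [cfg] at hx
          | cons Y s'' =>
            simp only [cfg, List.map_cons, List.head?_cons, Option.mem_def,
              Option.some.injEq] at hx
            subst hx
            rfl)
        have e2 : cfg (g.2 ++ s') = cfg g.2 ++ cfg s' := by simp [cfg]
        rw [e2]
        exact h
      · refine Or.inr (c1i_of hRDP rk g hg _ ?_)
        intro x hx h
        simp only [cfg, List.map_cons, List.head?_cons, Option.mem_def, Option.some.injEq] at hx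
        rw [← hx] at h
        simp only [Prod.mk.injEq, Lb.z.injEq, and_true] at h
        exact e h
  · intro σ hσ
    rw [rd_gG_flag]
    rcases hσ with ⟨τ, rfl⟩ | ⟨s, X', τ, rfl, hs⟩
    · refine c1i_of hRDP rk g hg _ ?_
      intro x hx h
      simp only [List.head?_cons, Option.mem_def, Option.some.injEq] at hx
      rw [← hx] at h
      simp at h
    · cases s with
      | nil =>
        refine c1i_of hRDP rk g hg _ ?_
        intro x hx h
        simp only [cfg, List.map_nil, List.nil_append, List.head?_cons, Option.mem_def,
          Option.some.injEq] at hx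
        rw [← hx] at h
        simp at h
      | cons Y s' =>
        by_cases e : Y = g.1
        · subst e
          cases s' with
          | nil =>
            have h1 := hs g.1 (by simp)
            have h2 : g.2 = [] := by
              by_contra hne
              have h3 := hg (g.2.getLast hne) (by simp [List.getLast?_eq_getLast_of_ne_nil hne])
              rw [h3.1] at h1
              simp at h1
            have h4 := (hRDP W rk g ((.z X', false) :: τ) hg).2.2 h2 (by
              intro x hx h
              simp only [List.head?_cons, Option.mem_def, Option.some.injEq] at hx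
              rw [← hx] at h
              simp at h)
            refine ⟨true, (.z X', false) :: τ, h4, Or.inr ⟨[], X', τ, rfl, by simp⟩⟩
          | cons Z s'' =>
            have h := (hRDP W rk g (cfg (Z :: s'') ++ (.z X', false) :: τ) hg).2.1 (by
              intro x hx
              simp only [cfg, List.map_cons, List.cons_append, List.head?_cons, Option.mem_def,
                Option.some.injEq] at hx
              rw [← hx])
            refine ⟨true, _, h, Or.inr ⟨g.2 ++ (Z :: s''), X', τ, ?_, ?_⟩⟩
            · simp [cfg]
            · intro z hz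
              refine hs z ?_
              simp only [Option.mem_def] at hz ⊢
              rw [← hz, List.getLast?_append, List.getLast?_cons_cons]
              rw [List.getLast?_eq_getLast_of_ne_nil (List.cons_ne_nil Z s'')]
              rfl
        · refine c1i_of hRDP rk g hg _ ?_
          intro x hx h
          simp only [cfg, List.map_cons, List.cons_append, List.head?_cons, Option.mem_def,
            Option.some.injEq] at hx
          rw [← hx] at h
          simp only [Prod.mk.injEq, Lb.z.injEq, and_true] at h
          exact e h
  · intro x σ hx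
    rw [rd_gG, ap_push _ _ _ (show x ≠ iv ((.b false, false) : Lb W × Bool) from hx)]
    refine c1i_of hRDP rk g hg _ ?_
    intro y hy h
    simp only [List.head?_cons, Option.mem_def, Option.some.injEq] at hy
    rw [← hy] at h
    simp at h
  · rintro σ ⟨ρ, g', τ, rfl, hρ⟩
    have hpub : ∀ a ∈ gG g, Pb a := by
      intro a ha
      simp only [gG, List.mem_cons, List.mem_append, List.mem_map, List.mem_reverse,
        List.not_mem_nil, or_false] at ha
      rcases ha with rfl | rfl | ⟨X, -, rfl⟩ | rfl
      · exact Or.inl ⟨false, rfl⟩
      · exact Or.inr ⟨g.1, rfl⟩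
      · exact Or.inr ⟨X, rfl⟩
      · exact Or.inl ⟨true, rfl⟩
    obtain ⟨δ', h1, h2⟩ := (hBAS (Lb W) (.y g', true) ρ τ).2 (gG g) (by
      intro a ha h
      rcases hpub a ha with ⟨i, hi⟩ | ⟨X, hX⟩
      · rw [h] at hi; simp [iv] at hi
      · rw [h] at hX; simp [iv] at hX)
    refine ⟨δ', g', τ, h1, fun x hx => ?_⟩
    rcases h2 x hx with h3 | h3
    · exact hρ x h3
    · exact hpub x h3

end Pool.Agent.Helper65.WB
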